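import Pool.Agent.H47.VT.Targets6

/-!
# Siegel's theorem for all real characters
-/

set_option autoImplicit false

open Complex MeasureTheory Set

namespace Pool.Agent.H70.VT.SG

open Pool.Agent.H47.VT
open Pool.Agent.H30.BV (cv DS)

theorem DS_zero {q : ℕ} (χ : DirichletCharacter ℂ q) (s : ℂ) :
    DS (cv χ) 0 s = LSeries (fun n => χ n) s := by
  unfold DS cv
  congr 1
  funext n
  simp

/-- the product of `1 - 1 / p` -/
theorem prod_lower {δ : ℝ} (hδ : 0 < δ) : ∃ c : ℝ, 0 < c ∧ ∀ q : ℕ, 1 ≤ q →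
    c * (q : ℝ) ^ (-δ) ≤ ∏ p ∈ q.primeFactors, (1 - (p : ℝ)⁻¹) := by
  set P : ℕ := ⌈(2 : ℝ) ^ (1 / δ)⌉₊ with hP
  refine ⟨(1 / 2) ^ P, by positivity, ?_⟩
  intro q hq
  have hp1 : ∀ p ∈ q.primeFactors, (1 : ℝ) / 2 ≤ 1 - (p : ℝ)⁻¹ := by
    intro p hp
    have h2 : (2 : ℝ) ≤ p := by exact_mod_cast (Nat.prime_of_mem_primeFactors hp).two_le
    have h3 : (p : ℝ)⁻¹ ≤ 2⁻¹ := inv_anti₀ (by norm_num) h2
    linarith
  have hfac : ∀ p ∈ q.primeFactors,
      (if p < P then (1 : ℝ) / 2 else 1) * (p : ℝ) ^ (-δ) ≤ 1 - (p : ℝ)⁻¹ := by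
    intro p hp
    have h2 : (2 : ℝ) ≤ p := by exact_mod_cast (Nat.prime_of_mem_primeFactors hp).two_le
    have h3 := hp1 p hp
    have h4 : (p : ℝ) ^ (-δ) ≤ 1 :=
      Real.rpow_le_one_of_one_le_of_nonpos (by linarith) (by linarith)
    have h4' : 0 ≤ (p : ℝ) ^ (-δ) := by positivity
    split_ifs with h
    · linarith
    · rw [one_mul]
      refine le_trans ?_ h3
      have h5 : (2 : ℝ) ^ (1 / δ) ≤ p := by
        refine (Nat.le_ceil _).trans ?_
        have : P ≤ p := by omega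
        exact_mod_cast this
      have h6 : (2 : ℝ) ≤ (p : ℝ) ^ δ := by
        calc (2 : ℝ) = ((2 : ℝ) ^ (1 / δ)) ^ δ := by
              rw [← Real.rpow_mul (by norm_num), one_div, inv_mul_cancel₀ hδ.ne', Real.rpow_one]
          _ ≤ _ := Real.rpow_le_rpow (by positivity) h5 hδ.le
      rw [Real.rpow_neg (by linarith), one_div]
      exact inv_anti₀ (by norm_num) h6
  have h1 : ∏ p ∈ q.primeFactors, ((if p < P then (1 : ℝ) / 2 else 1) * (p : ℝ) ^ (-δ)) ≤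
      ∏ p ∈ q.primeFactors, (1 - (p : ℝ)⁻¹) := by
    refine Finset.prod_le_prod (fun p _ => ?_) hfac
    split_ifs <;> positivity
  refine le_trans ?_ h1
  rw [Finset.prod_mul_distrib]
  have h2 : (1 / 2 : ℝ) ^ P ≤ ∏ p ∈ q.primeFactors, (if p < P then (1 : ℝ) / 2 else 1) := by
    rw [Finset.prod_ite, Finset.prod_const, Finset.prod_const_one, mul_one]
    refine pow_le_pow_of_le_one (by norm_num) (by norm_num) ?_
    calc (q.primeFactors.filter (fun p => p < P)).card ≤ (Finset.range P).card := by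
          refine Finset.card_le_card fun p hp => ?_
          rw [Finset.mem_filter] at hp
          exact Finset.mem_range.2 hp.2
      _ = P := Finset.card_range P
  have h3 : (q : ℝ) ^ (-δ) ≤ ∏ p ∈ q.primeFactors, (p : ℝ) ^ (-δ) := by
    rw [Real.finsetProd_rpow _ _ (fun p _ => by positivity)]
    have h4 : ((∏ p ∈ q.primeFactors, p : ℕ) : ℝ) ≤ q := by
      exact_mod_cast Nat.le_of_dvd (by omega) (Nat.prod_primeFactors_dvd q)
    have h5 : (0 : ℝ) < ∏ p ∈ q.primeFactors, (p : ℝ) := by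
      refine Finset.prod_pos fun p hp => ?_
      exact_mod_cast (Nat.prime_of_mem_primeFactors hp).pos
    push_cast at h4
    exact Real.rpow_le_rpow_of_nonpos h5 h4 (by linarith)
  have h6 : (0 : ℝ) ≤ (q : ℝ) ^ (-δ) := by positivity
  refine mul_le_mul h2 h3 h6 (Finset.prod_nonneg fun p _ => ?_)
  split_ifs <;> positivity

/-- the primitive characters -/
theorem prim_lower (hSGP : T_SGP) (hSGE : T_SGE) (hDV : Pool.Agent.H30.BV.T_DV)
    (hTL : Pool.Agent.H30.BV.T_TL) (hCB : Pool.Agent.H30.BV.T_CB) {δ : ℝ} (hδ : 0 < δ) :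
    ∃ c : ℝ, 0 < c ∧ ∀ (q : ℕ) (χ : DirichletCharacter ℂ q) (x : ℝ), 1 ≤ q → χ.IsPrimitive →
      χ ≠ 1 → χ ^ 2 = 1 → 0 < x → x ≤ 1 → c * (q : ℝ) ^ (-(2 * δ)) ≤ ‖DS (cv χ) 0 (1 + x)‖ := by
  obtain ⟨c1, hc1, hP⟩ := hSGP δ hδ
  obtain ⟨C, hC, hD⟩ := hDV
  obtain ⟨_, _, hE⟩ := hSGE
  -- the logarithm
  set K : ℝ := (2 / δ * 3 ^ (δ / 2)) ^ 2 with hK
  have hK0 : 0 < K := by positivity
  have hlog : ∀ q : ℕ, 1 ≤ q → Real.log (q * 3) ^ 2 ≤ K * (q : ℝ) ^ δ := by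
    intro q hq
    have hq1 : (1 : ℝ) ≤ q := by exact_mod_cast hq
    have h1 : Real.log (q * 3) ≤ (q * 3 : ℝ) ^ (δ / 2) / (δ / 2) :=
      Real.log_le_rpow_div (by positivity) (by positivity)
    have h0 : 0 ≤ Real.log (q * 3) := Real.log_nonneg (by linarith)
    have h2 : (q * 3 : ℝ) ^ (δ / 2) / (δ / 2) = 2 / δ * 3 ^ (δ / 2) * (q : ℝ) ^ (δ / 2) := by
      rw [Real.mul_rpow (by positivity) (by norm_num)]
      field_simp
    rw [h2] at h1
    calc Real.log (q * 3) ^ 2 ≤ (2 / δ * 3 ^ (δ / 2) * (q : ℝ) ^ (δ / 2)) ^ 2 :=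
          pow_le_pow_left₀ h0 h1 2
      _ = K * (q : ℝ) ^ δ := by
          rw [mul_pow, ← hK, ← Real.rpow_natCast ((q : ℝ) ^ (δ / 2)), ← Real.rpow_mul (by
            positivity)]
          congr 2
          push_cast
          ring
  refine ⟨min (c1 / 2) (c1 / (6 * C * K)), by positivity, ?_⟩
  intro q χ x hq hprim hne hsq hx0 hx1
  have hq1 : (1 : ℝ) ≤ q := by exact_mod_cast hq
  have hq0 : (0 : ℝ) < q := by linarith
  obtain ⟨hcont, heq, -, -⟩ := hE q χ hq hne hsq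
  have hL := hP q χ hq hprim hne hsq
  have hlg := hlog q hq
  have hlg0 : 0 < Real.log (q * 3) := Real.log_pos (by linarith)
  have hcast : ((1 : ℂ) + (x : ℂ)) = ((1 + x : ℝ) : ℂ) := by push_cast; ring
  have hqd : (q : ℝ) ^ (-(2 * δ)) = (q : ℝ) ^ (-δ) * ((q : ℝ) ^ δ)⁻¹ := by
    rw [← Real.rpow_neg hq0.le, ← Real.rpow_add hq0]
    congr 1
    ring
  have hqd1 : (1 : ℝ) ≤ (q : ℝ) ^ δ := Real.one_le_rpow hq1 hδ.le
  have hqn : 0 < (q : ℝ) ^ (-δ) := by positivity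
  have hle : (q : ℝ) ^ (-(2 * δ)) ≤ (q : ℝ) ^ (-δ) := by
    rw [hqd]
    have : ((q : ℝ) ^ δ)⁻¹ ≤ 1 := inv_le_one_of_one_le₀ hqd1
    nlinarith
  by_cases hsmall : C * Real.log (q * 3) ^ 2 * x ≤ c1 * (q : ℝ) ^ (-δ) / 2
  · -- continuity
    have hstep : ∀ y : ℝ, 0 < y → y ≤ x → Pf (rv χ) (1 + y) ≤
        ‖DS (cv χ) 0 (1 + x)‖ + C * Real.log (q * 3) ^ 2 * x := by
      intro y hy hyx
      have h1 := hD (cv χ) q 0 ((1 + x : ℝ) : ℂ) ((1 + y : ℝ) : ℂ) hq1 le_rfl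
        (fun n => by unfold cv; exact DirichletCharacter.norm_le_one χ _)
        (fun M => hCB q χ hq hne M) (by rw [ofReal_re]; linarith) (by rw [ofReal_re]; linarith)
        (by rw [ofReal_re]; linarith) (by rw [ofReal_re]; linarith)
        (by rw [ofReal_im]; simp) (by rw [ofReal_im]; simp)
      have h2 : ‖(((1 + x : ℝ) : ℂ)) - ((1 + y : ℝ) : ℂ)‖ ≤ x := by
        rw [← ofReal_sub, Complex.norm_real, Real.norm_eq_abs, abs_le]
        constructor <;> linarith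
      have h3 := heq (1 + y) (by linarith) (by linarith)
      rw [h3, hcast]
      have h4 : ‖DS (cv χ) 0 ((1 + y : ℝ) : ℂ)‖ ≤ ‖DS (cv χ) 0 ((1 + x : ℝ) : ℂ)‖ +
          ‖DS (cv χ) 0 ((1 + x : ℝ) : ℂ) - DS (cv χ) 0 ((1 + y : ℝ) : ℂ)‖ := by
        have := norm_sub_norm_le (DS (cv χ) 0 ((1 + y : ℝ) : ℂ)) (DS (cv χ) 0 ((1 + x : ℝ) : ℂ))
        rw [norm_sub_rev] at this
        linarith
      refine h4.trans ?_
      have h5 : C * Real.log (q * (0 + 3)) ^ 2 * ‖(((1 + x : ℝ) : ℂ)) - ((1 + y : ℝ) : ℂ)‖ ≤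
          C * Real.log (q * 3) ^ 2 * x := by
        rw [zero_add]
        exact mul_le_mul_of_nonneg_left h2 (by positivity)
      linarith
    have hlim : Filter.Tendsto (fun y : ℝ => Pf (rv χ) (1 + y)) (nhdsWithin 0 (Ioi 0))
        (nhds (Pf (rv χ) 1)) := by
      have h1 : ContinuousAt (Pf (rv χ)) 1 := hcont.continuousAt (Ioi_mem_nhds one_pos)
      have h2 : Filter.Tendsto (fun y : ℝ => 1 + y) (nhdsWithin 0 (Ioi 0)) (nhds 1) := by
        have : Filter.Tendsto (fun y : ℝ => 1 + y) (nhds 0) (nhds (1 + 0)) :=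
          (continuous_const.add continuous_id).tendsto 0
        rw [add_zero] at this
        exact this.mono_left nhdsWithin_le_nhds
      exact h1.tendsto.comp h2
    have hfin : Pf (rv χ) 1 ≤ ‖DS (cv χ) 0 (1 + x)‖ + C * Real.log (q * 3) ^ 2 * x := by
      refine le_of_tendsto hlim ?_
      have : Ioc (0 : ℝ) x ∈ nhdsWithin (0 : ℝ) (Ioi 0) := Ioc_mem_nhdsGT hx0
      filter_upwards [this] with y hy
      exact hstep y hy.1 hy.2
    have hmin : min (c1 / 2) (c1 / (6 * C * K)) ≤ c1 / 2 := min_le_left _ _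
    calc min (c1 / 2) (c1 / (6 * C * K)) * (q : ℝ) ^ (-(2 * δ)) ≤ c1 / 2 * (q : ℝ) ^ (-δ) :=
          mul_le_mul hmin hle (by positivity) (by positivity)
      _ ≤ _ := by linarith
  · push Not at hsmall
    have h1 := hTL q χ ((1 + x : ℝ) : ℂ) hq (by rw [ofReal_re]; linarith)
      (by rw [ofReal_re]; linarith)
    rw [ofReal_re] at h1
    have h2 : c1 * (q : ℝ) ^ (-δ) / 2 < C * (K * (q : ℝ) ^ δ) * x :=
      hsmall.trans_le (mul_le_mul_of_nonneg_right (mul_le_mul_of_nonneg_left hlg hC.le) hx0.le)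
    rw [hcast]
    refine le_trans ?_ h1
    have hmin : min (c1 / 2) (c1 / (6 * C * K)) ≤ c1 / (6 * C * K) := min_le_right _ _
    calc min (c1 / 2) (c1 / (6 * C * K)) * (q : ℝ) ^ (-(2 * δ)) ≤
          c1 / (6 * C * K) * (q : ℝ) ^ (-(2 * δ)) :=
          mul_le_mul_of_nonneg_right hmin (by positivity)
      _ = c1 * (q : ℝ) ^ (-δ) / 2 / (3 * (C * (K * (q : ℝ) ^ δ))) := by
          rw [hqd]
          field_simp
          ring
      _ ≤ C * (K * (q : ℝ) ^ δ) * x / (3 * (C * (K * (q : ℝ) ^ δ))) :=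
          div_le_div_of_nonneg_right h2.le (by positivity)
      _ = (1 + x - 1) / 3 := by
          field_simp
          ring

theorem pf_SG (hSGP : T_SGP) (hSGE : T_SGE) (hDV : Pool.Agent.H30.BV.T_DV)
    (hTL : Pool.Agent.H30.BV.T_TL) (hCB : Pool.Agent.H30.BV.T_CB) : T_SG := by
  intro ε hε
  obtain ⟨c3, hc3, h3⟩ := prim_lower hSGP hSGE hDV hTL hCB (δ := ε / 3) (by positivity)
  obtain ⟨c4, hc4, h4⟩ := prod_lower (δ := ε / 3) (by positivity)
  refine ⟨c3 * c4, by positivity, ?_⟩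
  intro q χ x hq hne hsq hx0 hx1
  have : NeZero q := ⟨by omega⟩
  have hq1 : (1 : ℝ) ≤ q := by exact_mod_cast hq
  have hq0 : (0 : ℝ) < q := by linarith
  have hcl := χ.changeLevel_primitiveCharacter
  have hcd := χ.conductor_dvd_level
  have hc0 : χ.conductor ≠ 0 := χ.conductor_ne_zero
  have hc1 : 1 ≤ χ.conductor := Nat.one_le_iff_ne_zero.2 hc0
  have hcq : (χ.conductor : ℝ) ≤ q := by exact_mod_cast Nat.le_of_dvd (by omega) hcd
  have hne' : χ.primitiveCharacter ≠ 1 := by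
    intro h
    rw [h, map_one] at hcl
    exact hne hcl.symm
  have hsq' : χ.primitiveCharacter ^ 2 = 1 := by
    apply DirichletCharacter.changeLevel_injective hcd
    rw [map_pow, hcl, map_one, hsq]
  have h5 := h3 χ.conductor χ.primitiveCharacter x hc1 χ.primitiveCharacter_isPrimitive hne' hsq'
    hx0 hx1
  have h6 := h4 q hq
  have hs : 1 < ((1 : ℂ) + x).re := by simp; exact hx0
  have h7 : DS (cv χ) 0 (1 + x) = DS (cv χ.primitiveCharacter) 0 (1 + x) *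
      ∏ p ∈ q.primeFactors, (1 - χ.primitiveCharacter p * (p : ℂ) ^ (-(1 + x : ℂ))) := by
    rw [DS_zero, DS_zero]
    have h8 := DirichletCharacter.LSeries_changeLevel hcd χ.primitiveCharacter hs
    rw [hcl] at h8
    exact h8
  have h8 : ∏ p ∈ q.primeFactors, (1 - (p : ℝ)⁻¹) ≤
      ‖∏ p ∈ q.primeFactors, (1 - χ.primitiveCharacter p * (p : ℂ) ^ (-(1 + x : ℂ)))‖ := by
    rw [norm_prod]
    refine Finset.prod_le_prod (fun p hp => ?_) fun p hp => ?_
    · have h2 : (2 : ℝ) ≤ p := by exact_mod_cast (Nat.prime_of_mem_primeFactors hp).two_le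
      have : (p : ℝ)⁻¹ ≤ 1 := inv_le_one_of_one_le₀ (by linarith)
      linarith
    · have h2 : (2 : ℝ) ≤ p := by exact_mod_cast (Nat.prime_of_mem_primeFactors hp).two_le
      have h9 : ‖χ.primitiveCharacter p * (p : ℂ) ^ (-(1 + x : ℂ))‖ ≤ (p : ℝ)⁻¹ := by
        rw [norm_mul]
        have h10 : ‖(p : ℂ) ^ (-(1 + x : ℂ))‖ = (p : ℝ) ^ (-(1 + x)) := by
          have : (p : ℂ) = ((p : ℝ) : ℂ) := by push_cast; rfl
          rw [this, Complex.norm_cpow_eq_rpow_re_of_pos (by linarith)]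
          congr 1
        rw [h10]
        have h11 : ‖χ.primitiveCharacter p‖ ≤ 1 := DirichletCharacter.norm_le_one _ _
        have h12 : (p : ℝ) ^ (-(1 + x)) ≤ (p : ℝ) ^ (-1 : ℝ) :=
          Real.rpow_le_rpow_of_exponent_le (by linarith) (by linarith)
        rw [Real.rpow_neg_one] at h12
        have h13 : 0 ≤ (p : ℝ) ^ (-(1 + x)) := by positivity
        calc ‖χ.primitiveCharacter p‖ * (p : ℝ) ^ (-(1 + x)) ≤ 1 * (p : ℝ) ^ (-(1 + x)) :=
              mul_le_mul_of_nonneg_right h11 h13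
          _ ≤ _ := by linarith
      have h10 : 1 - ‖χ.primitiveCharacter p * (p : ℂ) ^ (-(1 + x : ℂ))‖ ≤
          ‖1 - χ.primitiveCharacter p * (p : ℂ) ^ (-(1 + x : ℂ))‖ := by
        have := norm_sub_norm_le (1 : ℂ) (χ.primitiveCharacter p * (p : ℂ) ^ (-(1 + x : ℂ)))
        rwa [norm_one] at this
      linarith
  rw [h7, norm_mul]
  have h9 : (q : ℝ) ^ (-(2 * (ε / 3))) ≤ (χ.conductor : ℝ) ^ (-(2 * (ε / 3))) :=
    Real.rpow_le_rpow_of_nonpos (by exact_mod_cast hc1) hcq (by linarith)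
  calc c3 * c4 * (q : ℝ) ^ (-ε) = (c3 * (q : ℝ) ^ (-(2 * (ε / 3)))) * (c4 * (q : ℝ) ^ (-(ε / 3))) := by
        have : (q : ℝ) ^ (-ε) = (q : ℝ) ^ (-(2 * (ε / 3))) * (q : ℝ) ^ (-(ε / 3)) := by
          rw [← Real.rpow_add hq0]
          congr 1
          ring
        rw [this]
        ring
    _ ≤ (c3 * (χ.conductor : ℝ) ^ (-(2 * (ε / 3)))) * ∏ p ∈ q.primeFactors, (1 - (p : ℝ)⁻¹) :=
        mul_le_mul (mul_le_mul_of_nonneg_left h9 hc3.le) h6 (by positivity) (by positivity)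
    _ ≤ _ := mul_le_mul h5 h8 (le_trans (by positivity) h6) (norm_nonneg _)

end Pool.Agent.H70.VT.SG
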